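import Mathlib

set_option autoImplicit false

/-!
# Bounds for the linear arboricity which are closed under constructions: definitions
-/

namespace Pool.Agent.H79.LJ

open SimpleGraph

section

variable {V W : Type}

/-- All degrees of `G` are at most `D`. -/
def DegLE (G : SimpleGraph V) (D : ℕ) : Prop := ∀ v, (G.neighborSet v).ncard ≤ D

/-- The number of the neighbours `v` of `u` in `X` with `f v = j`. -/
noncomputable def nbr (X : SimpleGraph V) (f : V → W) (u : V) (j : W) : ℕ :=
  {v | X.Adj u v ∧ f v = j}.ncard

/-- `f` is a locally injective homomorphism from `G` to `H`, for example an embedding or a covering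
map. -/
structure LocInj (G : SimpleGraph V) (H : SimpleGraph W) (f : V → W) : Prop where
  hom : ∀ a b, G.Adj a b → H.Adj (f a) (f b)
  inj : ∀ a b c, G.Adj a b → G.Adj a c → f b = f c → b = c

/-- The lexicographic product `G[H]`: every vertex of `G` is replaced by a copy of `H`, and all
edges between the copies which replace adjacent vertices are added. -/
def lexProduct (G : SimpleGraph V) (H : SimpleGraph W) : SimpleGraph (V × W) where
  Adj x y := G.Adj x.1 y.1 ∨ (x.1 = y.1 ∧ H.Adj x.2 y.2)
  symm := ⟨fun _ _ h => h.elim (fun h => Or.inl h.symm) (fun h => Or.inr ⟨h.1.symm, h.2.symm⟩)⟩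
  loopless := ⟨fun _ h => h.elim (fun h => G.loopless.irrefl _ h)
    (fun h => H.loopless.irrefl _ h.2)⟩

/-- The graph of the edges of `X` whose ends are in the same class of `f`. -/
def innerGraph (X : SimpleGraph W) (f : W → V) : SimpleGraph W where
  Adj x y := X.Adj x y ∧ f x = f y
  symm := ⟨fun _ _ h => ⟨h.1.symm, h.2.symm⟩⟩
  loopless := ⟨fun _ h => X.loopless.irrefl _ h.1⟩

/-- `H` has an acyclic edge colouring with `q` colours: a proper edge colouring such that there is no
cycle the edges of which have at most two colours. -/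
def AcyclicCol (H : SimpleGraph W) (q : ℕ) : Prop :=
  ∃ ε : Sym2 W → Fin q, (∀ w a b, H.Adj w a → H.Adj w b → a ≠ b → ε s(w, a) ≠ ε s(w, b)) ∧
    ∀ (x y : Fin q) (w : W) (c : H.Walk w w), c.IsCycle → ∃ e ∈ c.edges, ε e ≠ x ∧ ε e ≠ y

/-- `2 / (number of vertices of the component of w)` if all vertices of the component of `w` have
degree two in `H` (for finite graphs of maximum degree at most two: if the component is a cycle),
and `0` otherwise. -/
noncomputable def load (H : SimpleGraph W) (w : W) : ℝ :=
  open Classical in
  if ∀ x, H.Reachable w x → (H.neighborSet x).ncard = 2 then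
    (2 : ℝ) / {x | H.Reachable w x}.ncard else 0

/-- `G` is `k`-degenerate: every nonempty set of vertices contains a vertex with at most `k`
neighbours in that set. -/
def Degenerate (G : SimpleGraph V) (k : ℕ) : Prop :=
  ∀ S : Set V, S.Nonempty → ∃ v ∈ S, (G.neighborSet v ∩ S).ncard ≤ k

/-- `c` is a directed cycle of length `n` of the digraph `D`: distinct vertices `c 0, …, c (n - 1)`
with arcs `c i → c (i + 1)`, indices modulo `n`. -/
def IsDirCycle (D : V → V → Prop) (n : ℕ) (c : ZMod n → V) : Prop :=
  0 < n ∧ Function.Injective c ∧ ∀ i, D (c i) (c (i + 1))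

/-- `G` is the underlying graph of the digraph `D`, all of whose outdegrees and indegrees are at
most `k`. -/
def Oriented (G : SimpleGraph V) (D : V → V → Prop) (k : ℕ) : Prop :=
  (∀ u v, G.Adj u v ↔ D u v ∨ D v u) ∧ (∀ v, {w | D v w}.ncard ≤ k) ∧
    ∀ v, {w | D w v}.ncard ≤ k

/-- `x` and `y` are twins: they have the same neighbours apart from themselves. -/
def Twins (P : SimpleGraph V) (x y : V) : Prop :=
  ∀ z, z ≠ x → z ≠ y → (P.Adj z x ↔ P.Adj z y)

/-- The number of the twins of `x`, with `x` itself. -/
noncomputable def twinNum (P : SimpleGraph V) (x : V) : ℕ := {y | Twins P x y}.ncard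

/-- The graph of the heavy edges `x y`: `x` and `y` are twins, or the product of the numbers of their
twins is larger than `D`. -/
def heavy (P : SimpleGraph V) (D : ℕ) : SimpleGraph V :=
  SimpleGraph.fromRel (fun x y => P.Adj x y ∧ (Twins P x y ∨ D < twinNum P x * twinNum P y))

/-- Adjacency of two different vertices depends only on their classes, the fibres of `f`. -/
def Homogeneous (X : SimpleGraph V) (f : V → W) : Prop :=
  ∀ x y x' y', f x = f x' → f y = f y' → x ≠ y → x' ≠ y' → X.Adj x y → X.Adj x' y'

/-- The number `1 + δ (1 + (δ - 1) + ⋯ + (δ - 1)^(d - 1))` of the Moore bound. -/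
def moore (δ d : ℕ) : ℕ := 1 + δ * ∑ i ∈ Finset.range d, (δ - 1) ^ i

/-- `X` is the blow-up of `G` by `m` for the map `f`: the fibres of `f` have `m` elements and two
vertices of `X` are adjacent if and only if their images are. -/
def IsBlowUp (G : SimpleGraph V) (X : SimpleGraph W) (f : W → V) (m : ℕ) : Prop :=
  (∀ v, {x | f x = v}.ncard = m) ∧ ∀ x y, X.Adj x y ↔ G.Adj (f x) (f y)

/-- The total graph `T(H)`: its vertices are the vertices and the edges of `H`; two of them are
adjacent if they are adjacent vertices, a vertex and an edge containing it, or two different edges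
with a common end. -/
def totalGraph (H : SimpleGraph V) : SimpleGraph (V ⊕ H.edgeSet) where
  Adj
    | .inl u, .inl v => H.Adj u v
    | .inl u, .inr e => u ∈ (e : Sym2 V)
    | .inr e, .inl u => u ∈ (e : Sym2 V)
    | .inr e, .inr e' => H.lineGraph.Adj e e'
  symm := ⟨by
    rintro (u | e) (v | e') h
    · exact SimpleGraph.Adj.symm (G := H) h
    · exact h
    · exact h
    · exact SimpleGraph.Adj.symm (G := H.lineGraph) h⟩
  loopless := ⟨by
    rintro (u | e) h
    · exact SimpleGraph.irrefl (G := H) h
    · exact SimpleGraph.irrefl (G := H.lineGraph) h⟩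

end

/-- The starting families: `Start V G k` means that the graph `G` with the vertex set `V` is in one of
the following families of finite graphs, and `k` is the bound for its linear arboricity which is known
for this family.

* `greedy`: maximum degree at most `k`.
* `overCycles`: `G` lies over graphs `H i` of maximum degree at most two such that for every `w` the sum of
  `2 / |C|` over the components `C` of `w` in the `H i` which are cycles is at most one; `k` is the
  number of the `H i` plus one.
* `overMatching`: `G` lies over `m` graphs `H i` of maximum degree at most two without cycles of length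
  less than `12 m - 8` and a matching `M`; `k = m + 1`.
* `directed`: `G` is the underlying graph of a digraph with outdegrees and indegrees at most `d` such
  that the length of every directed cycle is at least twice the minimum of the outdegree and the
  indegree of each of its vertices; `k = d + 1`.
* `longCycles`: the same with directed cycles of length at least `2 m`; `k = d + ⌈d / m⌉`.
* `classes`: the vertices are divided into homogeneous classes, the degrees are less than `2 k` and the
  product of the sizes of two different classes which are joined is at least `2 k`.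
* `twins`: the degrees are at most `D`, and the ends of every edge are joined by a path of heavy edges;
  `k = ⌈(D + 1) / 2⌉`.
* `cycles`: the degrees are at most `2 d`, and the reciprocals of the lengths of any pairwise
  edge-disjoint cycles through a common vertex sum up to at most `1 / 2`; `k = d + 1`.
* `degenerate`: the degrees are at most `r` and the graph is `d`-degenerate, `2 d ≤ r`, or `r` is even
  and `2 d ≤ r + 2`; `k = ⌈(r + 1) / 2⌉`.
* `blowUp`: blow-ups by `m` of `r`-regular graphs all of whose cycles are longer than `2 d`, where `r` or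
  `m` is even and `r` is at most the Moore bound for `min (2 m) r` (`r` even) or `min m r`, and `d`;
  for `d = 1` this is `r ≤ 2 m + 1` or `r ≤ m + 1`; `k = ⌈(r m + 1) / 2⌉`.
* `oddBlowUp`: blow-ups by `m` of `r`-regular graphs whose components have at least `6 r` vertices, `r`
  and `m ≥ r` odd; `k = (r m + 1) / 2`.
* `directedBlowUp`: blow-ups by `m` of underlying graphs of digraphs with outdegrees and indegrees at
  most `d` and directed cycles of length at least `2 d` (and at least `2 d (m + 1) / m` if `m` leaves
  remainder `2` modulo `4` and the length is odd); `k = d m + 1`.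
* `manyFactors`: Cartesian products of graphs `G i` which are `r i`-regular, `r i ≤ R`, if the sum `r` of
  the `r i` is positive and at least `53 R log (156 R)`; `k = ⌈(r + 1) / 2⌉`.
* `lineGraph`: line graphs of graphs of maximum degree at most `k`, `k` even.
* `total`: total graphs of graphs of maximum degree at most `2 d`; `k = 2 d + 1`.
* `cyclic`, `elementary`: Cayley graphs of `ℤ/n` with no involutions in the connection set, and of
  `(ℤ/p)ⁿ`, `p ≥ 5` prime; `k = |S| / 2 + 1`.
* `transitive`: vertex-transitive graphs with `p` or `p ^ 2` vertices, `p ≥ 5` prime, of maximum degree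
  at most `r`; `k = ⌈(r + 1) / 2⌉`. -/
inductive Start : (V : Type) → SimpleGraph V → ℕ → Prop
  | greedy (V : Type) [Finite V] (G : SimpleGraph V) (k : ℕ) : DegLE G k → Start V G k
  | overCycles (V W κ : Type) [Finite V] [Finite W] [Fintype κ] (G : SimpleGraph V)
      (H : κ → SimpleGraph W) (p : V → W) : (∀ i, DegLE (H i) 2) →
      (∀ u j, nbr G p u j ≤ {i | (H i).Adj (p u) j}.ncard) → (∀ w, ∑ i, load (H i) w ≤ 1) →
      Start V G (Fintype.card κ + 1)
  | overMatching (V W κ : Type) [Finite V] [Finite W] [Fintype κ] (G : SimpleGraph V)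
      (H : κ → SimpleGraph W) (M : SimpleGraph W) (p : V → W) : (∀ i, DegLE (H i) 2) →
      DegLE M 1 → (∀ i w x, M.Adj w x → ¬ (H i).Adj w x) →
      (∀ u j, M.Adj (p u) j → nbr G p u j ≤ 1) →
      (∀ u j, ¬ M.Adj (p u) j → nbr G p u j ≤ {i | (H i).Adj (p u) j}.ncard) →
      (∀ i (w : W) (c : (H i).Walk w w), c.IsCycle → 12 * Fintype.card κ ≤ c.length + 8) →
      Start V G (Fintype.card κ + 1)
  | directed (V : Type) [Finite V] (G : SimpleGraph V) (D : V → V → Prop) (d : ℕ) :
      Oriented G D d → (∀ n c, IsDirCycle D n c → ∀ i,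
        2 * min {w | D (c i) w}.ncard {w | D w (c i)}.ncard ≤ n) → Start V G (d + 1)
  | longCycles (V : Type) [Finite V] (G : SimpleGraph V) (D : V → V → Prop) (d m : ℕ) : 1 ≤ m →
      Oriented G D d → (∀ n c, IsDirCycle D n c → 2 * m ≤ n) → Start V G (d + (d + m - 1) / m)
  | classes (V C : Type) [Finite V] (G : SimpleGraph V) (f : V → C) (k : ℕ) :
      (∀ x, (G.neighborSet x).ncard < 2 * k) → Homogeneous G f →
      (∀ x y, G.Adj x y → f x ≠ f y → 2 * k ≤ {z | f z = f x}.ncard * {z | f z = f y}.ncard) →
      Start V G k
  | twins (V : Type) [Finite V] (G : SimpleGraph V) (D : ℕ) : DegLE G D →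
      (∀ x y, G.Adj x y → (heavy G D).Reachable x y) → Start V G ((D + 2) / 2)
  | cycles (V : Type) [Finite V] (G : SimpleGraph V) (d : ℕ) : DegLE G (2 * d) →
      (∀ (v : V) (m : ℕ) (c : Fin m → G.Walk v v), (∀ i, (c i).IsCycle) →
        (∀ i j, i ≠ j → ∀ e ∈ (c i).edges, e ∉ (c j).edges) →
        ∑ i, (1 : ℝ) / (c i).length ≤ 1 / 2) → Start V G (d + 1)
  | degenerate (V : Type) [Finite V] (G : SimpleGraph V) (r d : ℕ) : Degenerate G d →
      DegLE G r → (2 * d ≤ r ∨ (Even r ∧ 2 * d ≤ r + 2)) → Start V G ((r + 2) / 2)
  | blowUp (V W : Type) [Finite V] [Finite W] (G : SimpleGraph V) (X : SimpleGraph W) (f : W → V)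
      (r m d : ℕ) : 0 < r → 0 < m → (∀ v, (G.neighborSet v).ncard = r) → (Even r ∨ Even m) →
      (∀ (v : V) (c : G.Walk v v), c.IsCycle → 2 * d < c.length) →
      r ≤ moore (if Even r then min (2 * m) r else min m r) d → IsBlowUp G X f m →
      Start W X ((r * m + 2) / 2)
  | oddBlowUp (V W : Type) [Finite V] [Finite W] (G : SimpleGraph V) (X : SimpleGraph W)
      (f : W → V) (r m : ℕ) : Odd r → Odd m → r ≤ m → (∀ v, (G.neighborSet v).ncard = r) →
      (∀ v, 6 * r ≤ {w | G.Reachable v w}.ncard) → IsBlowUp G X f m → Start W X ((r * m + 1) / 2)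
  | directedBlowUp (V W : Type) [Finite V] [Finite W] (G : SimpleGraph V) (X : SimpleGraph W)
      (f : W → V) (D : V → V → Prop) (d m : ℕ) : 0 < d → 0 < m → Oriented G D d →
      (∀ n c, IsDirCycle D n c → 2 * d ≤ n ∧ (m % 4 = 2 → Odd n → 2 * d * (m + 1) ≤ m * n)) →
      IsBlowUp G X f m → Start W X (d * m + 1)
  | manyFactors (ι : Type) [Fintype ι] (V : ι → Type) [∀ i, Finite (V i)] [∀ i, Nonempty (V i)]
      (G : ∀ i, SimpleGraph (V i)) (P : SimpleGraph (∀ i, V i)) (r : ι → ℕ) (R : ℕ) :
      (∀ x y, P.Adj x y ↔ ∃ i, (G i).Adj (x i) (y i) ∧ ∀ j, j ≠ i → x j = y j) →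
      (∀ i v, ((G i).neighborSet v).ncard = r i) → (∀ i, r i ≤ R) → 0 < ∑ i, r i →
      53 * (R : ℝ) * Real.log (156 * R) ≤ ∑ i, (r i : ℝ) → Start (∀ i, V i) P ((∑ i, r i + 2) / 2)
  | lineGraph (U : Type) [Finite U] (H : SimpleGraph U) (k : ℕ) : DegLE H k → Even k →
      Start H.edgeSet H.lineGraph k
  | total (U : Type) [Finite U] (H : SimpleGraph U) (d : ℕ) : DegLE H (2 * d) →
      Start (U ⊕ H.edgeSet) (totalGraph H) (2 * d + 1)
  | cyclic (n : ℕ) [NeZero n] (S : Set (ZMod n)) (X : SimpleGraph (ZMod n)) :
      (∀ v w, X.Adj v w ↔ w - v ∈ S) → (∀ s ∈ S, s + s ≠ 0) → Start (ZMod n) X (S.ncard / 2 + 1)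
  | elementary (p n : ℕ) (S : Set (Fin n → ZMod p)) (X : SimpleGraph (Fin n → ZMod p)) :
      p.Prime → 5 ≤ p → (∀ v w, X.Adj v w ↔ w - v ∈ S) →
      Start (Fin n → ZMod p) X (S.ncard / 2 + 1)
  | transitive (p : ℕ) (V : Type) (X : SimpleGraph V) (r : ℕ) : p.Prime → 5 ≤ p →
      (Nat.card V = p ∨ Nat.card V = p ^ 2) → (∀ u v : V, ∃ φ : X ≃g X, φ u = v) → DegLE X r →
      Start V X ((r + 2) / 2)

/-- `Bounded V G k`: the bound `k` for the linear arboricity of the graph `G` with the vertex set `V`
is obtained from the starting families by finitely many applications of the following rules.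

* `start`: the starting families. `mono`: `k` can be increased.
* `locInj`: from `H` to `G`, if there is a locally injective homomorphism from `G` to `H`; for example
  if `G` is a subgraph or a covering graph of `H`.
* `union`: from `(G, k)` and `(H, l)`, with the same vertex set, to `(G ∪ H, k + l)`.
* `multiple`: from `(G, k)` to `(X, β k)`, if there is a homomorphism from `X` to `G` such that every
  vertex of `X` has at most `β` neighbours over every vertex of `G`.
* `fibres`: from `(G, k)` to `(X, k)`, if the degrees of `G` are at most `2 k - 2` and there is a map `f`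
  from `X` to `G` such that every edge of `X` lies over a vertex or an edge of `G` and every vertex of
  `X` has at most one neighbour over every vertex of `G`.
* `box`: from `(G, k)` and `(H, l)` to `(G □ H, k)`, if the degrees of `G` are at most `2 k - 2 l`.
* `boxCol`: from `(G, k)` to `(G □ H, k)`, if `H` has an acyclic edge colouring with `q ≥ 2` colours and
  the degrees of `G` are at most `2 k - q`.
* `lex`: from `(H, q)` to `(G[H], r m / 2 + q)`, if the degrees of `H` are less than `2 q`, `G` is a graph
  of maximum degree at most `r`, `H` has `m` vertices, and `r` is even and `r ≤ 2 m`, or `m` is even and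
  `r ≤ m`.
* `inner`: the same for graphs `X` in which the vertices of an `r`-regular graph `G` all components of
  which have at least `4 r q` vertices are replaced by different graphs with `m` vertices. -/
inductive Bounded : (V : Type) → SimpleGraph V → ℕ → Prop
  | start (V : Type) (G : SimpleGraph V) (k : ℕ) : Start V G k → Bounded V G k
  | mono (V : Type) (G : SimpleGraph V) (k l : ℕ) : Bounded V G k → k ≤ l → Bounded V G l
  | locInj (V W : Type) [Finite V] (G : SimpleGraph V) (H : SimpleGraph W) (f : V → W) (k : ℕ) :
      Bounded W H k → LocInj G H f → Bounded V G k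
  | union (V : Type) (G H : SimpleGraph V) (k l : ℕ) : Bounded V G k → Bounded V H l →
      Bounded V (G ⊔ H) (k + l)
  | multiple (V W : Type) [Finite V] (X : SimpleGraph V) (G : SimpleGraph W) (f : V → W)
      (k β : ℕ) : Bounded W G k → (∀ u v, X.Adj u v → G.Adj (f u) (f v)) →
      (∀ u j, nbr X f u j ≤ β) → Bounded V X (β * k)
  | fibres (V W : Type) [Finite V] (X : SimpleGraph V) (G : SimpleGraph W) (f : V → W) (k : ℕ) :
      Bounded W G k → (∀ w, (G.neighborSet w).ncard + 2 ≤ 2 * k) →
      (∀ u v, X.Adj u v → f u = f v ∨ G.Adj (f u) (f v)) → (∀ u j, nbr X f u j ≤ 1) →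
      Bounded V X k
  | box (V W : Type) (G : SimpleGraph V) (H : SimpleGraph W) (k l : ℕ) : Bounded V G k →
      Bounded W H l → (∀ v, (G.neighborSet v).ncard + 2 * l ≤ 2 * k) → Bounded (V × W) (G □ H) k
  | boxCol (V W : Type) [Finite W] (G : SimpleGraph V) (H : SimpleGraph W) (k q : ℕ) :
      Bounded V G k → 2 ≤ q → AcyclicCol H q → (∀ v, (G.neighborSet v).ncard + q ≤ 2 * k) →
      Bounded (V × W) (G □ H) k
  | lex (V U : Type) [Finite V] (G : SimpleGraph V) (H : SimpleGraph U) (r q : ℕ) : 0 < r →
      DegLE G r → (Even r ∧ r ≤ 2 * Nat.card U) ∨ (Even (Nat.card U) ∧ r ≤ Nat.card U) →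
      Bounded U H q → (∀ x, (H.neighborSet x).ncard < 2 * q) →
      Bounded (V × U) (lexProduct G H) (r * Nat.card U / 2 + q)
  | inner (V W : Type) [Finite V] (G : SimpleGraph V) (X : SimpleGraph W) (f : W → V)
      (r m q : ℕ) : 0 < r → 0 < m → (∀ v, (G.neighborSet v).ncard = r) →
      (∀ v, {w | f w = v}.ncard = m) → (Even r ∧ r ≤ 2 * m) ∨ (Even m ∧ r ≤ m) →
      (∀ x y, f x ≠ f y → X.Adj x y → G.Adj (f x) (f y)) → Bounded W (innerGraph X f) q →
      (∀ x, ((innerGraph X f).neighborSet x).ncard < 2 * q) →
      (∀ C : G.ConnectedComponent, 4 * (r * q) ≤ C.supp.ncard) → Bounded W X (r * m / 2 + q)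

end Pool.Agent.H79.LJ
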