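import Pool.Agent.H79.LJ.Defs
import Pool.Agent.H79.VT.Prod
import Pool.Agent.H79.LA.Results_MP_0a041d_co_DifferentInner
import Pool.Agent.H79.LA.Results_MP_0a041d_co_LexicographicClosure
import Pool.Agent.H79.LA.Results_MP_0a041d_co_OddDegreeClasses
import Pool.Agent.H79.LA.Results_MP_0a041d_co_MultigraphQuotients
import Pool.Agent.H79.LA.Results_MP_0a041d_co_FibreMatchings
import Pool.Agent.H79.LA.Results_MP_0a041d_co_TotalGraphs
import Pool.Agent.H79.LA.Results_MP_0a041d_co_DegeneracyHalf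
import Pool.Agent.H79.LA.Results_MP_0a041d_co_FarShortCycles
import Pool.Agent.H79.LA.Results_MP_0a041d_co_TwinClasses
import Pool.Agent.H79.LA.Results_MP_0a041d_co_AcyclicColourings
import Pool.Agent.H79.LA.Results_MP_0a041d_co_LineGraphs
import Pool.Agent.H79.LA.Results_MP_0a041d_co_LongDirectedCycles
import Pool.Agent.H79.LA.Results_MP_0a041d_co_QuotientForests
import Pool.Agent.H79.LA.Results_MP_0a041d_co_BlowUps
import Pool.Agent.H79.LA.Results_MP_0a041d_co_OddBlowUps
import Pool.Agent.H79.LA.Results_MP_0a041d_co_TwistedBlowups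
import Pool.Agent.H79.LA.Results_MP_0a041d_co_BalancedProducts

set_option autoImplicit false

/-!
# Bounds for the linear arboricity which are closed under constructions: the theorem
-/

namespace Pool.Agent.H79.LJ

open SimpleGraph H931R3.LA

/-- a cover by edge-disjoint forests -/
theorem cov_disjoint {V : Type} [Finite V] {G : SimpleGraph V} {k : ℕ} (h : Cov G k) :
    ∃ F : Fin k → SimpleGraph V, (∀ i, IsLF (F i)) ∧ (∀ u v, G.Adj u v → ∃ i, (F i).Adj u v) ∧
      ∀ v, ∑ i, ((F i).neighborSet v).ncard = (G.neighborSet v).ncard := by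
  classical
  obtain ⟨F, hF, rfl⟩ := h
  let F' : Fin k → SimpleGraph V := fun i =>
    { Adj := fun u v => (F i).Adj u v ∧ ∀ j < i, ¬ (F j).Adj u v
      symm := ⟨fun u v h => ⟨h.1.symm, fun j hj h1 => h.2 j hj h1.symm⟩⟩
      loopless := ⟨fun u h => (F i).loopless.irrefl u h.1⟩ }
  have hle : ∀ i, F' i ≤ F i := fun i u v h => h.1
  have hex : ∀ u v, (⨆ i, F i).Adj u v → ∃ i, (F' i).Adj u v := by
    intro u v h
    rw [iSup_adj] at h
    have h1 : (Finset.univ.filter fun i => (F i).Adj u v).Nonempty := by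
      obtain ⟨i, hi⟩ := h
      exact ⟨i, Finset.mem_filter.2 ⟨Finset.mem_univ _, hi⟩⟩
    refine ⟨Finset.min' _ h1, (Finset.mem_filter.1 (Finset.min'_mem _ h1)).2, fun j hj h2 => ?_⟩
    have h3 := Finset.min'_le (Finset.univ.filter fun i => (F i).Adj u v) j
      (Finset.mem_filter.2 ⟨Finset.mem_univ _, h2⟩)
    exact absurd hj (not_lt.2 h3)
  refine ⟨F', fun i => ⟨?_, ?_⟩, hex, ?_⟩
  · exact (hF i).1.anti (hle i)
  · intro v
    exact (Set.ncard_le_ncard (fun w hw => hle i hw) (Set.toFinite _)).trans ((hF i).2 v)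
  · intro v
    have hdisj : Pairwise fun i j => Disjoint ((F' i).neighborSet v) ((F' j).neighborSet v) := by
      intro i j hij
      rw [Set.disjoint_left]
      intro w hi hj
      rcases lt_trichotomy i j with h | h | h
      · exact hj.2 i h hi.1
      · exact hij h
      · exact hi.2 j h hj.1
    have hun : ((⨆ i, F i).neighborSet v) = ⋃ i, (F' i).neighborSet v := by
      ext w
      rw [Set.mem_iUnion]
      constructor
      · intro hw
        exact hex v w hw
      · rintro ⟨i, hi⟩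
        show (⨆ i, F i).Adj v w
        rw [iSup_adj]
        exact ⟨i, hi.1⟩
    have := Fintype.ofFinite V
    have h1 : ∀ i, ((F' i).neighborSet v).ncard = ((F' i).neighborSet v).toFinset.card :=
      fun i => Set.ncard_eq_toFinset_card' _
    rw [hun, Set.ncard_eq_toFinset_card']
    simp only [h1]
    rw [← Finset.card_biUnion]
    · congr 1
      ext w
      simp
    · intro i _ j _ hij
      show Disjoint (((F' i).neighborSet v).toFinset) (((F' j).neighborSet v).toFinset)
      rw [Set.disjoint_toFinset]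
      exact hdisj hij

theorem cov_union {V : Type} {G H : SimpleGraph V} {k l : ℕ} (hG : Cov G k) (hH : Cov H l) :
    Cov (G ⊔ H) (k + l) := by
  obtain ⟨F, hF, rfl⟩ := hG
  obtain ⟨F', hF', rfl⟩ := hH
  refine ⟨Fin.append F F', ?_, ?_⟩
  · intro i
    refine Fin.addCases (fun i => ?_) (fun i => ?_) i
    · rw [Fin.append_left]
      exact hF i
    · rw [Fin.append_right]
      exact hF' i
  · ext u v
    rw [iSup_adj, sup_adj, iSup_adj, iSup_adj]
    constructor
    · rintro ⟨i, hi⟩
      revert hi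
      refine Fin.addCases (fun i => ?_) (fun i => ?_) i
      · rw [Fin.append_left]
        exact fun h => Or.inl ⟨i, h⟩
      · rw [Fin.append_right]
        exact fun h => Or.inr ⟨i, h⟩
    · rintro (⟨i, hi⟩ | ⟨i, hi⟩)
      · exact ⟨Fin.castAdd l i, by rwa [Fin.append_left]⟩
      · exact ⟨Fin.natAdd k i, by rwa [Fin.append_right]⟩

theorem cov_multiple {V W : Type} [Finite V] [Finite W] {X : SimpleGraph V} {G : SimpleGraph W}
    {f : V → W} {k β : ℕ} (hG : Cov G k) (hadj : ∀ u v, X.Adj u v → G.Adj (f u) (f v))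
    (hβ : ∀ u j, nbr X f u j ≤ β) : Cov X (β * k) := by
  classical
  obtain ⟨F, hF, rfl⟩ := hG
  refine la_le_iff.1 (LAR.QuotientForests.result.1 V W X (β * k)
    (fun c => F (finProdFinEquiv.symm c).2) f (fun c => hF _) ?_)
  intro u j
  by_cases h : ∃ i, (F i).Adj (f u) j
  · obtain ⟨i, hi⟩ := h
    refine (hβ u j).trans ?_
    have h1 : Set.range (fun b : Fin β => finProdFinEquiv (b, i)) ⊆
        {c | (F (finProdFinEquiv.symm c).2).Adj (f u) j} := by
      rintro _ ⟨b, rfl⟩
      simp only [Set.mem_ofPred_eq, Equiv.symm_apply_apply]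
      exact hi
    refine le_trans ?_ (Set.ncard_le_ncard h1 (Set.toFinite _))
    rw [← Set.image_univ, Set.ncard_image_of_injective, Set.ncard_univ, Nat.card_fin]
    intro b b' hbb
    exact (Prod.ext_iff.1 (finProdFinEquiv.injective hbb)).1
  · have h1 : {v | X.Adj u v ∧ f v = j} = ∅ := by
      rw [Set.eq_empty_iff_forall_notMem]
      rintro v ⟨hv, rfl⟩
      have h2 := hadj u v hv
      rw [iSup_adj] at h2
      exact h h2
    rw [h1, Set.ncard_empty]
    exact Nat.zero_le _

theorem cov_fibres {V W : Type} [Finite V] [Finite W] {X : SimpleGraph V} {G : SimpleGraph W}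
    {f : V → W} {k : ℕ} (hG : Cov G k) (hdeg : ∀ w, (G.neighborSet w).ncard + 2 ≤ 2 * k)
    (hadj : ∀ u v, X.Adj u v → f u = f v ∨ G.Adj (f u) (f v)) (h1 : ∀ u j, nbr X f u j ≤ 1) :
    Cov X k := by
  classical
  obtain ⟨F, hF, hex, hsum⟩ := cov_disjoint hG
  refine la_le_iff.1 (LAR.FibreMatchings.result.1 V W X k F f hF ?_ ?_ ?_)
  · intro j
    rw [hsum]
    exact hdeg j
  · intro u j hj
    by_cases h : G.Adj (f u) j
    · obtain ⟨i, hi⟩ := hex _ _ h
      refine (h1 u j).trans ?_
      rw [Nat.one_le_iff_ne_zero, ← Nat.pos_iff_ne_zero, Set.ncard_pos (Set.toFinite _)]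
      exact ⟨i, hi⟩
    · have h2 : {v | X.Adj u v ∧ f v = j} = ∅ := by
        rw [Set.eq_empty_iff_forall_notMem]
        rintro v ⟨hv, rfl⟩
        rcases hadj u v hv with h3 | h3
        · exact hj h3.symm
        · exact h h3
      rw [h2, Set.ncard_empty]
      exact Nat.zero_le _
  · intro u
    exact h1 u (f u)

theorem aec_of_col {W : Type} {H : SimpleGraph W} {q : ℕ} (h : AcyclicCol H q) : AEC H q := by
  obtain ⟨ε, h1, h2⟩ := h
  refine ⟨ε, h1, fun x y => ?_⟩
  intro w c hc
  have hle : twoClasses H ε x y ≤ H := fun a b h => h.1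
  obtain ⟨e, he, hx, hy⟩ := h2 x y w (c.mapLe hle) (hc.mapLe hle)
  rw [Walk.edges_mapLe_eq_edges] at he
  have h3 := c.edges_subset_edgeSet he
  induction e using Sym2.ind with
  | _ a b =>
    rw [mem_edgeSet] at h3
    rcases h3.2 with h4 | h4
    · exact hx h4
    · exact hy h4

/-- a blow-up is isomorphic to the standard blow-up -/
theorem cov_blowUp {V W : Type} [Finite V] [Finite W] {G : SimpleGraph V} {X : SimpleGraph W}
    {f : W → V} {m k : ℕ} (hX : IsBlowUp G X f m)
    (h : Cov (G.comap (Prod.fst : V × Fin m → V)) k) : Cov X k := by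
  classical
  have he : ∀ v, Nonempty ({x | f x = v} ≃ Fin m) := fun v => by
    have h1 : Nat.card {x | f x = v} = m := hX.1 v
    exact ⟨(Finite.equivFin _).trans (finCongr h1)⟩
  obtain ⟨e⟩ : Nonempty (∀ v, {x | f x = v} ≃ Fin m) := ⟨fun v => Classical.choice (he v)⟩
  refine Pool.Agent.TH525.FRG.cov_hom X _ (fun x => (f x, e (f x) ⟨x, rfl⟩)) ?_ ?_ k h
  · intro x y hxy
    exact (hX.2 x y).1 hxy
  · intro x y z _ _ hyz
    have h1 : f y = f z := congrArg Prod.fst hyz
    have h2 : e (f y) ⟨y, rfl⟩ = e (f z) ⟨z, rfl⟩ := congrArg Prod.snd hyz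
    have key : ∀ (v : V) (hy : f y = v) (hz : f z = v), e v ⟨y, hy⟩ = e v ⟨z, hz⟩ → y = z := by
      intro v hy hz h3
      exact congrArg Subtype.val ((e v).injective h3)
    have h3 : ∀ (v : V) (hz : f z = v), e v ⟨z, hz⟩ = e (f z) ⟨z, rfl⟩ := by
      rintro v rfl
      rfl
    refine key (f y) rfl h1.symm ?_
    rw [h3 (f y) h1.symm]
    exact h2

theorem Start.main {V : Type} {G : SimpleGraph V} {k : ℕ} (h : Start V G k) :
    Finite V ∧ Cov G k := by
  classical
  induction h with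
  | greedy V G k hk =>
    exact ⟨inferInstance, la_le_iff.1 (la_greedy G k hk)⟩
  | overCycles V W κ G H p h1 h2 h3 =>
    exact ⟨inferInstance, la_le_iff.1
      (LAR.MultigraphQuotients.result.1 V W κ G H p ⟨h1, h2⟩ h3).1⟩
  | overMatching V W κ G H M p h1 h2 h3 h4 h5 h6 =>
    exact ⟨inferInstance, la_le_iff.1
      (LAR.MultigraphQuotients.result.2.2.1 V W κ G H M p ⟨h1, h2, h3, h4, h5⟩ h6).1⟩
  | directed V G D d h1 h2 =>
    exact ⟨inferInstance, la_le_iff.1 (LAR.LongDirectedCycles.result.2.2.1 V G D d h1 h2)⟩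
  | longCycles V G D d m hm h1 h2 =>
    exact ⟨inferInstance, la_le_iff.1 (LAR.LongDirectedCycles.result.2.2.2 V G D d m hm h1 h2)⟩
  | classes V C G f k h1 h2 h3 =>
    exact ⟨inferInstance, la_le_iff.1 (LAR.OddDegreeClasses.result.1 V C G f k h1 h2 h3).1⟩
  | twins V G D h1 h2 =>
    exact ⟨inferInstance, la_le_iff.1 (LAR.TwinClasses.result.1 V G D h1 h2)⟩
  | cycles V G d h1 h2 =>
    exact ⟨inferInstance, la_le_iff.1 (LAR.FarShortCycles.result.1 V G d h1 h2).1⟩
  | degenerate V G r d h1 h2 h3 =>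
    exact ⟨inferInstance, la_le_iff.1 (LAR.DegeneracyHalf.result.2.1 V G r d h1 h2 h3)⟩
  | blowUp V W G X f r m d hr hm h1 h2 h3 h4 h5 =>
    refine ⟨inferInstance, cov_blowUp h5 ?_⟩
    rcases isEmpty_or_nonempty V with hV | hV
    · exact (VT.cov_zero _ fun v => (hV.false v.1).elim).mono (Nat.zero_le _)
    · exact la_le_iff.1 (LAR.BlowUps.result V G r m d hr hm h1 h2 h3 h4).2.le
  | oddBlowUp V W G X f r m hr hm h1 h2 h3 h4 =>
    refine ⟨inferInstance, cov_blowUp h4 ?_⟩
    rcases isEmpty_or_nonempty V with hV | hV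
    · exact (VT.cov_zero _ fun v => (hV.false v.1).elim).mono (Nat.zero_le _)
    · refine la_le_iff.1 ?_
      have h5 := (LAR.OddBlowUps.result V G r m hr hm h1 h2 h3).2
      have h6 : la (G.comap (Prod.fst : V × Fin m → V)) = la (LAR.OddBlowUps.blowUp G m) := rfl
      omega
  | directedBlowUp V W G X f D d m hd hm h1 h2 h3 =>
    refine ⟨inferInstance, ?_⟩
    have h4 : X = G.comap f := by
      ext x y
      exact h3.2 x y
    rw [h4]
    exact la_le_iff.1 (LAR.TwistedBlowups.result V G D d m hd hm h1 h2 W f h3.1).1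
  | manyFactors ι V G P r R h1 h2 h3 h4 h5 =>
    exact ⟨inferInstance, la_le_iff.1
      (((LAR.BalancedProducts.result ι V G P r R h1 h2 h3 h4).2.1 h5).1).le⟩
  | lineGraph U H k h1 h2 =>
    exact ⟨inferInstance, la_le_iff.1 (LAR.LineGraphs.result.2.1 U H k h1 (Or.inl h2))⟩
  | total U H d h1 =>
    refine ⟨inferInstance, la_le_iff.1 ?_⟩
    have h2 := LAR.TotalGraphs.result.2.1 U H d h1
    have h3 : totalGraph H = Pool.Agent.N411.TG.totalGraph H := by
      ext a b
      rcases a with a | a <;> rcases b with b | b <;> exact Iff.rfl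
    rw [h3]
    exact h2
  | cyclic n S X h1 h2 =>
    refine ⟨inferInstance, ?_⟩
    obtain ⟨S', rfl⟩ := (Set.toFinite S).exists_finset_coe
    rw [Set.ncard_coe_finset]
    have hX' : ∀ v w, X.Adj v w ↔ w - v ∈ S' := by
      intro v w
      rw [h1, Finset.mem_coe]
    have hneg : ∀ x ∈ S', -x ∈ S' := by
      intro x hx
      have h1 : X.Adj 0 x := (hX' 0 x).2 (by rwa [sub_zero])
      have h2 := (hX' x 0).1 h1.symm
      rwa [zero_sub] at h2
    exact (Pool.Agent.Y647.LAC.ld_even n S' hneg (fun s hs => h2 s (by exact_mod_cast hs)) X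
      hX').lift X id (fun a b h => h) (fun a b c _ _ h => h)
  | elementary p n S X hp h5 h1 =>
    have : Fact p.Prime := ⟨hp⟩
    refine ⟨inferInstance, ?_⟩
    obtain ⟨S', rfl⟩ := (Set.toFinite S).exists_finset_coe
    rw [Set.ncard_coe_finset]
    have hX' : ∀ v w, X.Adj v w ↔ w - v ∈ S' := by
      intro v w
      rw [h1, Finset.mem_coe]
    have h0 : (0 : Fin n → ZMod p) ∉ S' := by
      intro h
      have h1 : X.Adj 0 0 := (hX' 0 0).2 (by rwa [sub_zero])
      exact X.irrefl h1
    have hneg : ∀ x ∈ S', -x ∈ S' := by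
      intro x hx
      have h1 : X.Adj 0 x := (hX' 0 x).2 (by rwa [sub_zero])
      have h2 := (hX' x 0).1 h1.symm
      rwa [zero_sub] at h2
    rcases S'.eq_empty_or_nonempty with he | hne
    · refine (VT.cov_zero X fun v => ?_).mono (Nat.zero_le _)
      rw [Pool.Agent.TH486.LAC.cay_deg_add S' X hX', he, Finset.card_empty]
    · exact (Pool.Agent.TH486.LAC.ld_all (p := p) h5 S' hne h0 hneg X hX').lift X id
        (fun a b h => h) (fun a b c _ _ h => h)
  | transitive p V X r hp h5 hV ht hr =>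
    have : Fact p.Prime := ⟨hp⟩
    have hpos : 0 < Nat.card V := by
      rcases hV with h | h <;> rw [h]
      · exact hp.pos
      · exact pow_pos hp.pos 2
    obtain ⟨⟨v⟩, hfin⟩ := Nat.card_pos_iff.1 hpos
    refine ⟨hfin, ?_⟩
    obtain ⟨s, hs, hc⟩ := VT.covers_transitive (p := p) h5 hV X ht
    have hsr : s ≤ r := by
      rw [← hs v]
      exact hr v
    rcases Nat.eq_zero_or_pos s with h0 | h0
    · subst h0
      exact (VT.cov_zero X hs).mono (Nat.zero_le _)
    · exact (hc h0 V X id (fun a b h => h) (fun a b c _ _ h => h)).mono (by omega)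

theorem Bounded.main {V : Type} {G : SimpleGraph V} {k : ℕ} (h : Bounded V G k) :
    Finite V ∧ Cov G k := by
  classical
  induction h with
  | start V G k h => exact h.main
  | mono V G k l _ hkl ih => exact ⟨ih.1, ih.2.mono hkl⟩
  | locInj V W G H f k _ hf ih =>
    obtain ⟨_, hH⟩ := ih
    exact ⟨inferInstance, Pool.Agent.TH525.FRG.cov_hom G H f hf.hom hf.inj _ hH⟩
  | union V G H k l _ _ ih1 ih2 => exact ⟨ih1.1, cov_union ih1.2 ih2.2⟩
  | multiple V W X G f k β _ h1 h2 ih =>
    obtain ⟨_, hG⟩ := ih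
    exact ⟨inferInstance, cov_multiple hG h1 h2⟩
  | fibres V W X G f k _ h1 h2 h3 ih =>
    obtain ⟨_, hG⟩ := ih
    exact ⟨inferInstance, cov_fibres hG h1 h2 h3⟩
  | box V W G H k l _ _ hd ih1 ih2 =>
    obtain ⟨_, hG⟩ := ih1
    obtain ⟨_, hH⟩ := ih2
    exact ⟨inferInstance, cov_boxProd_all hG hH hd⟩
  | boxCol V W G H k q _ hq hH hd ih =>
    obtain ⟨_, hG⟩ := ih
    exact ⟨inferInstance, la_le_iff.1 (LAR.AcyclicColourings.result.1 V W G H q k hq
      (aec_of_col hH) (la_le hG) hd)⟩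
  | lex V U G H r q hr h1 h2 _ h3 ih =>
    obtain ⟨_, hH⟩ := ih
    refine ⟨inferInstance, la_le_iff.1 ?_⟩
    exact LAR.LexicographicClosure.result.1 V U G H r q hr h1 h2 (la_le hH) h3
  | inner V W G X f r m q hr hm h1 h2 h3 h4 _ h5 h6 ih =>
    obtain ⟨_, hH⟩ := ih
    exact ⟨inferInstance, la_le_iff.1 (LAR.DifferentInner.result.1 V W G X f r m q hr hm h1 h2 h3
      h4 (la_le hH) h5 h6)⟩

end Pool.Agent.H79.LJ
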